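import Mathlib

namespace Pool.Agent.Results.MP_5f020a_co.Disproof

open Finset

/-- The template `P` (a palette for every pair of vertices of `K_n`) is `H`-SDR-free: for no copy of
`H` in `K_n` do the palettes on its edges have a system of distinct representatives. -/
def SDRFree {V : Type} (H : SimpleGraph V) {n l : ℕ} (P : Sym2 (Fin n) → Finset (Fin l)) : Prop :=
  ∀ f : V → Fin n, Function.Injective f →
    ¬ ∃ c : H.edgeSet → Fin l, Function.Injective c ∧ ∀ e : H.edgeSet, c e ∈ P (Sym2.map f e.1)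

/-- `ex_log(n; H, l)`: the maximum of the sum of `log |P e|` over the edges of `K_n`, over all
`H`-SDR-free `l`-palette templates `P` on `K_n` (palettes are nonempty sets of colours). -/
noncomputable def exLog {V : Type} (H : SimpleGraph V) (n l : ℕ) : ℝ :=
  sSup {x : ℝ | ∃ P : Sym2 (Fin n) → Finset (Fin l), (∀ e, ¬ e.IsDiag → (P e).Nonempty) ∧
    SDRFree H P ∧ x = ∑ e ∈ (⊤ : SimpleGraph (Fin n)).edgeFinset, Real.log ((P e).card : ℝ)}

/-- `lambda(H, l)`: the infimum over `n ≥ v(H)` of `ex_log(n; H, l) / binom(n,2)`. -/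
noncomputable def lam {V : Type} [Fintype V] (H : SimpleGraph V) (l : ℕ) : ℝ :=
  ⨅ n : {n : ℕ // Fintype.card V ≤ n}, exLog H n.1 l / ((n.1.choose 2 : ℕ) : ℝ)

/-- `chi_j(H)`: the least chromatic number of a graph `H - S` with `S` a set of `j` edges of `H`. -/
noncomputable def chiDel {V : Type} (H : SimpleGraph V) (j : ℕ) : ℕ :=
  sInf {c : ℕ | ∃ S : Finset (Sym2 V), (S : Set (Sym2 V)) ⊆ H.edgeSet ∧ S.card = j ∧
    (H.deleteEdges (S : Set (Sym2 V))).chromaticNumber = (c : ℕ∞)}

/-- `pi_j(H) = 1 - 1/(chi_j(H) - 1)` if `chi_j(H) ≥ 3`, and `0` otherwise. -/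
noncomputable def piT {V : Type} (H : SimpleGraph V) (j : ℕ) : ℝ :=
  if 3 ≤ chiDel H j then 1 - 1 / ((chiDel H j : ℝ) - 1) else 0

/-! ### The graph -/

/-- vertices: the four vertices of a `K_4`, and `3M` further vertices -/
abbrev W (M : ℕ) : Type := Fin 4 ⊕ (Fin 3 × Fin M)

/-- adjacency -/
def adjB (M : ℕ) : W M → W M → Prop
  | Sum.inl i, Sum.inl j => i ≠ j
  | Sum.inl i, Sum.inr p => i = 0 ∨ i = p.1.succ
  | Sum.inr p, Sum.inl i => i = 0 ∨ i = p.1.succ
  | Sum.inr _, Sum.inr _ => False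

/-- `K_4` on `0,1,2,3` in which `0` and each `i ≥ 1` are joined by `M` further paths of length 2. -/
def G (M : ℕ) : SimpleGraph (W M) where
  Adj := adjB M
  symm := ⟨by
    rintro (i | p) (j | q) h
    · exact Ne.symm h
    · exact h
    · exact h
    · exact h⟩
  loopless := ⟨by
    rintro (i | p) h
    · exact h rfl
    · exact h⟩

instance (M : ℕ) : DecidableRel (G M).Adj := fun x y =>
  match x, y with
  | Sum.inl i, Sum.inl j => inferInstanceAs (Decidable (i ≠ j))
  | Sum.inl i, Sum.inr p => inferInstanceAs (Decidable (i = 0 ∨ i = p.1.succ))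
  | Sum.inr p, Sum.inl i => inferInstanceAs (Decidable (i = 0 ∨ i = p.1.succ))
  | Sum.inr _, Sum.inr _ => inferInstanceAs (Decidable False)

lemma adj_ll (M : ℕ) (i j : Fin 4) : (G M).Adj (Sum.inl i) (Sum.inl j) ↔ i ≠ j := Iff.rfl
lemma adj_lr (M : ℕ) (i : Fin 4) (p : Fin 3 × Fin M) :
    (G M).Adj (Sum.inl i) (Sum.inr p) ↔ (i = 0 ∨ i = p.1.succ) := Iff.rfl
lemma adj_rl (M : ℕ) (i : Fin 4) (p : Fin 3 × Fin M) :
    (G M).Adj (Sum.inr p) (Sum.inl i) ↔ (i = 0 ∨ i = p.1.succ) := Iff.rfl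
lemma adj_rr (M : ℕ) (p q : Fin 3 × Fin M) : ¬ (G M).Adj (Sum.inr p) (Sum.inr q) := fun h => h

lemma card_edges (M : ℕ) : (G M).edgeFinset.card = 6 * M + 6 := by
  have h := (G M).sum_degrees_eq_twice_card_edges
  have h1 : ∀ i : Fin 4, (G M).degree (Sum.inl i) = 3 + (if i = 0 then 3 * M else M) := by
    intro i
    rw [← SimpleGraph.card_neighborFinset_eq_degree]
    rw [SimpleGraph.neighborFinset_eq_filter, Finset.card_filter, Fintype.sum_sum_type]
    simp only [adj_ll, adj_lr, Fintype.sum_prod_type]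
    fin_cases i <;> simp [Fin.sum_univ_succ]
  have h2 : ∀ p, (G M).degree (Sum.inr p) = 2 := by
    intro p
    rw [← SimpleGraph.card_neighborFinset_eq_degree]
    rw [SimpleGraph.neighborFinset_eq_filter, Finset.card_filter, Fintype.sum_sum_type]
    obtain ⟨k, t⟩ := p
    simp only [adj_rl, adj_rr]
    fin_cases k <;> simp <;> decide
  rw [Fintype.sum_sum_type] at h
  simp only [h1, h2, Fin.sum_univ_succ] at h
  simp at h
  omega

/-! ### The template -/

/-- the template: residues modulo 4 are the four parts, residues modulo 2 the two sides -/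
noncomputable def tpl (n l a : ℕ) (e : Sym2 (Fin n)) : Finset (Fin l) :=
  open Classical in
  if (e.map (fun x => x.val % 4)).IsDiag then Finset.univ.filter (fun c => c.val < 1)
  else if (e.map (fun x => x.val % 2)).IsDiag then Finset.univ.filter (fun c => c.val < a)
  else Finset.univ

lemma mem_tpl_four {n l a : ℕ} {x y : Fin n} {c : Fin l} (h : c ∈ tpl n l a s(x, y))
    (hxy : x.val % 4 = y.val % 4) : c.val < 1 := by
  unfold tpl at h
  rw [if_pos (by simpa using hxy)] at h
  simpa using h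

lemma mem_tpl_two {n l a : ℕ} (ha : 1 ≤ a) {x y : Fin n} {c : Fin l} (h : c ∈ tpl n l a s(x, y))
    (hxy : x.val % 2 = y.val % 2) : c.val < a := by
  unfold tpl at h
  split_ifs at h with h1 h2
  · have : c.val < 1 := by simpa using h
    omega
  · simpa using h
  · exact absurd (by simpa using hxy) h2

lemma sdrFree (M n l : ℕ) (hM : 2 ≤ M) : SDRFree (G M) (tpl n l (M - 1)) := by
  classical
  rintro f hf ⟨c, hc, hcm⟩
  by_cases hA : ∃ i : Fin 3, (f (Sum.inl i.succ)).val % 2 ≠ (f (Sum.inl 0)).val % 2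
  · obtain ⟨i, hi⟩ := hA
    -- an inner edge at each middle vertex
    let u : Fin M → Fin 4 := fun t =>
      if (f (Sum.inr (i, t))).val % 2 = (f (Sum.inl 0)).val % 2 then 0 else i.succ
    have hu : ∀ t, u t = 0 ∨ u t = i.succ := by
      intro t
      by_cases h : (f (Sum.inr (i, t))).val % 2 = (f (Sum.inl 0)).val % 2
      · left; simp [u, h]
      · right; simp [u, h]
    have hE : ∀ t, s(Sum.inl (u t), Sum.inr (i, t)) ∈ (G M).edgeSet := by
      intro t
      rw [SimpleGraph.mem_edgeSet, adj_lr]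
      exact hu t
    have hpar : ∀ t, (f (Sum.inl (u t))).val % 2 = (f (Sum.inr (i, t))).val % 2 := by
      intro t
      by_cases h : (f (Sum.inr (i, t))).val % 2 = (f (Sum.inl 0)).val % 2
      · have : u t = 0 := by simp [u, h]
        rw [this, h]
      · have : u t = i.succ := by simp [u, h]
        rw [this]
        omega
    have hlt : ∀ t, (c ⟨_, hE t⟩).val < M - 1 := by
      intro t
      have := hcm ⟨_, hE t⟩
      simp only [Sym2.map_mk] at this
      exact mem_tpl_two (by omega) this (hpar t)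
    let g : Fin M → Fin (M - 1) := fun t => ⟨(c ⟨_, hE t⟩).val, hlt t⟩
    have hg : Function.Injective g := by
      intro t t' htt
      have h1 : (c ⟨_, hE t⟩).val = (c ⟨_, hE t'⟩).val := by
        simpa [g] using htt
      have h2 := hc (Fin.ext h1)
      have h3 : s(Sum.inl (u t), Sum.inr (i, t)) = s(Sum.inl (u t'), (Sum.inr (i, t') : W M)) := by
        simpa using congrArg Subtype.val h2
      rw [Sym2.eq_iff] at h3
      rcases h3 with ⟨_, h3⟩ | ⟨h3, _⟩
      · simpa using h3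
      · simp at h3
    have := Fintype.card_le_of_injective g hg
    simp at this
    omega
  · push Not at hA
    have hE : ∀ i j : Fin 4, i ≠ j → s(Sum.inl i, Sum.inl j) ∈ (G M).edgeSet := by
      intro i j hij
      rw [SimpleGraph.mem_edgeSet, adj_ll]
      exact hij
    have key : ∀ i j i' j' : Fin 4, i ≠ j → i' ≠ j' → s(i, j) ≠ s(i', j') →
        ¬ ((f (Sum.inl i)).val % 4 = (f (Sum.inl j)).val % 4 ∧
          (f (Sum.inl i')).val % 4 = (f (Sum.inl j')).val % 4) := by
      rintro i j i' j' hij hij' hne ⟨h1, h2⟩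
      have m1 := hcm ⟨_, hE i j hij⟩
      have m2 := hcm ⟨_, hE i' j' hij'⟩
      simp only [Sym2.map_mk] at m1 m2
      have l1 := mem_tpl_four m1 h1
      have l2 := mem_tpl_four m2 h2
      have h3 := hc (Fin.ext (show (c ⟨_, hE i j hij⟩).val = (c ⟨_, hE i' j' hij'⟩).val by omega))
      apply hne
      have h4 : s(Sum.inl i, Sum.inl j) = s(Sum.inl i', (Sum.inl j' : W M)) := by
        simpa using congrArg Subtype.val h3
      rw [Sym2.eq_iff] at h4 ⊢
      simpa using h4
    have a1 := hA 0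
    have a2 := hA 1
    have a3 := hA 2
    have e1 : (0 : Fin 3).succ = (1 : Fin 4) := rfl
    have e2 : (1 : Fin 3).succ = (2 : Fin 4) := rfl
    have e3 : (2 : Fin 3).succ = (3 : Fin 4) := rfl
    rw [e1] at a1
    rw [e2] at a2
    rw [e3] at a3
    have k1 := key 0 1 0 2 (by decide) (by decide) (by decide)
    have k2 := key 0 1 0 3 (by decide) (by decide) (by decide)
    have k3 := key 0 2 0 3 (by decide) (by decide) (by decide)
    have k4 := key 0 1 2 3 (by decide) (by decide) (by decide)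
    have k5 := key 0 2 1 3 (by decide) (by decide) (by decide)
    have k6 := key 0 3 1 2 (by decide) (by decide) (by decide)
    have k7 := key 1 2 1 3 (by decide) (by decide) (by decide)
    have k8 := key 1 2 2 3 (by decide) (by decide) (by decide)
    have k9 := key 1 3 2 3 (by decide) (by decide) (by decide)
    omega

/-! ### Counting pairs -/

lemma sum_top (n : ℕ) (F : Sym2 (Fin n) → ℝ) :
    ∑ e ∈ (⊤ : SimpleGraph (Fin n)).edgeFinset, F e
      = ∑ y : Fin n, ∑ x ∈ Finset.univ.filter (fun x : Fin n => x < y), F s(x, y) := by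
  classical
  have h0 : (⊤ : SimpleGraph (Fin n)).edgeFinset
      = (Finset.univ : Finset (Fin n)).sym2.filter (fun e => ¬ e.IsDiag) := by
    ext e
    induction e using Sym2.ind with
    | _ x y => simp
  rw [h0, Finset.sum_sym2_filter_not_isDiag]
  rw [Finset.sum_comm' (t' := Finset.univ) (s' := fun x => Finset.univ.filter (fun y => x < y))
    (by intro x y; simp)]
  rw [Finset.sum_sigma']
  refine Finset.sum_bij' (fun p _ => ⟨p.1, p.2⟩) (fun p _ => (p.1, p.2)) ?_ ?_ ?_ ?_ ?_
  · rintro ⟨x, y⟩ h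
    simp at h ⊢
    exact h.2
  · rintro ⟨x, y⟩ h
    simp at h ⊢
    exact ⟨ne_of_lt h, h⟩
  · rintro ⟨x, y⟩ h
    rfl
  · rintro ⟨x, y⟩ h
    rfl
  · rintro ⟨x, y⟩ h
    rfl

lemma card_mod_le (n m : ℕ) (y : Fin n) :
    ((Finset.univ.filter (fun x : Fin n => x < y ∧ x.val % m = y.val % m)).card : ℝ)
      ≤ (y.val : ℝ) / m := by
  have h : (Finset.univ.filter (fun x : Fin n => x < y ∧ x.val % m = y.val % m)).card
      ≤ (Finset.range (y.val / m)).card := by
    refine Finset.card_le_card_of_injOn (fun x => x.val / m) ?_ ?_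
    · intro x hx
      simp only [Finset.coe_filter, Finset.mem_univ, true_and, Set.mem_ofPred_eq] at hx
      simp only [Finset.coe_range, Set.mem_Iio]
      have h1 : x.val < y.val := hx.1
      have h2 := Nat.div_add_mod x.val m
      have h3 := Nat.div_add_mod y.val m
      by_contra hcon
      push Not at hcon
      have := Nat.mul_le_mul_left m hcon
      omega
    · intro x hx x' hx' hxx
      simp only [Finset.coe_filter, Finset.mem_univ, true_and, Set.mem_ofPred_eq] at hx hx'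
      have h2 := Nat.div_add_mod x.val m
      have h3 := Nat.div_add_mod x'.val m
      have hxx' : x.val / m = x'.val / m := hxx
      apply Fin.ext
      rw [← h2, ← h3, hx.2, hx'.2, hxx']
  rw [Finset.card_range] at h
  calc ((Finset.univ.filter (fun x : Fin n => x < y ∧ x.val % m = y.val % m)).card : ℝ)
      ≤ ((y.val / m : ℕ) : ℝ) := by exact_mod_cast h
    _ ≤ (y.val : ℝ) / m := Nat.cast_div_le

lemma card_lt (n : ℕ) (y : Fin n) :
    (Finset.univ.filter (fun x : Fin n => x < y)).card = y.val := by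
  rw [show Finset.univ.filter (fun x : Fin n => x < y) = Finset.Iio y by ext; simp]
  simp

lemma log_tpl (n l a : ℕ) (ha : 1 ≤ a) (hal : a ≤ l) (x y : Fin n) :
    Real.log ((tpl n l a s(x, y)).card : ℝ) =
      Real.log l - (if x.val % 2 = y.val % 2 then Real.log l - Real.log a else 0)
        - (if x.val % 4 = y.val % 4 then Real.log a else 0) := by
  have hc : ∀ b : ℕ, b ≤ l → (Finset.univ.filter (fun c : Fin l => c.val < b)).card = b := by
    intro b hb
    rw [Fin.card_filter_val_lt]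
    omega
  unfold tpl
  by_cases h4 : x.val % 4 = y.val % 4
  · have h2 : x.val % 2 = y.val % 2 := by omega
    rw [if_pos (by simpa using h4), hc 1 (by omega)]
    simp [h4, h2]
  · by_cases h2 : x.val % 2 = y.val % 2
    · rw [if_neg (by simpa using h4), if_pos (by simpa using h2), hc a hal]
      simp [h4, h2]
    · rw [if_neg (by simpa using h4), if_neg (by simpa using h2)]
      simp [h4, h2]

lemma sum_val (n : ℕ) : ∑ y : Fin n, (y.val : ℝ) = ((n.choose 2 : ℕ) : ℝ) := by
  rw [Fin.sum_univ_eq_sum_range (fun i => (i : ℝ)) n, ← Nat.cast_sum, Finset.sum_range_id,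
    Nat.choose_two_right]

lemma entropy_ge (n l a : ℕ) (ha : 1 ≤ a) (hal : a ≤ l) :
    ((n.choose 2 : ℕ) : ℝ) * (1 / 2 * Real.log l + 1 / 4 * Real.log a)
      ≤ ∑ e ∈ (⊤ : SimpleGraph (Fin n)).edgeFinset, Real.log ((tpl n l a e).card : ℝ) := by
  have hla : Real.log a ≤ Real.log l :=
    Real.log_le_log (by exact_mod_cast ha) (by exact_mod_cast hal)
  have ha0 : 0 ≤ Real.log a := Real.log_nonneg (by exact_mod_cast ha)
  rw [sum_top, ← sum_val, Finset.sum_mul]
  apply Finset.sum_le_sum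
  intro y _
  simp_rw [log_tpl n l a ha hal]
  rw [Finset.sum_sub_distrib, Finset.sum_sub_distrib, Finset.sum_const, card_lt,
    ← Finset.sum_filter, ← Finset.sum_filter, Finset.sum_const, Finset.sum_const,
    Finset.filter_filter, Finset.filter_filter]
  have h2 := card_mod_le n 2 y
  have h4 := card_mod_le n 4 y
  simp only [nsmul_eq_mul]
  have e2 := mul_le_mul_of_nonneg_right h2 (sub_nonneg.2 hla)
  have e4 := mul_le_mul_of_nonneg_right h4 ha0
  push_cast at e2 e4 ⊢
  linarith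

lemma tpl_nonempty (n l a : ℕ) (ha : 1 ≤ a) (hal : a ≤ l) (e : Sym2 (Fin n)) :
    (tpl n l a e).Nonempty := by
  have h0 : 0 < l := by omega
  refine ⟨⟨0, h0⟩, ?_⟩
  unfold tpl
  split_ifs
  · simp
  · simp
    omega
  · simp

lemma lam_ge (M l : ℕ) (hM : 2 ≤ M) (hl : M - 1 ≤ l) :
    1 / 2 * Real.log l + 1 / 4 * Real.log ((M - 1 : ℕ) : ℝ) ≤ lam (G M) l := by
  unfold lam
  have : Nonempty {n : ℕ // Fintype.card (W M) ≤ n} := ⟨⟨_, le_refl _⟩⟩
  apply le_ciInf
  rintro ⟨n, hn⟩
  have hn2 : 2 ≤ n := by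
    have : Fintype.card (W M) = 4 + 3 * M := by simp
    omega
  have hpos : (0 : ℝ) < ((n.choose 2 : ℕ) : ℝ) := by
    exact_mod_cast Nat.choose_pos hn2
  rw [le_div_iff₀ hpos]
  have hb : BddAbove {x : ℝ | ∃ P : Sym2 (Fin n) → Finset (Fin l),
      (∀ e, ¬ e.IsDiag → (P e).Nonempty) ∧ SDRFree (G M) P ∧
      x = ∑ e ∈ (⊤ : SimpleGraph (Fin n)).edgeFinset, Real.log ((P e).card : ℝ)} := by
    apply Set.Finite.bddAbove
    refine (Set.finite_range (fun P : Sym2 (Fin n) → Finset (Fin l) =>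
      ∑ e ∈ (⊤ : SimpleGraph (Fin n)).edgeFinset, Real.log ((P e).card : ℝ))).subset ?_
    rintro x ⟨P, _, _, rfl⟩
    exact ⟨P, rfl⟩
  have h1 := entropy_ge n l (M - 1) (by omega) hl
  refine le_trans (le_of_eq (mul_comm _ _)) (le_trans h1 ?_)
  exact le_csSup hb ⟨tpl n l (M - 1), fun e _ => tpl_nonempty n l (M - 1) (by omega) hl e,
    sdrFree M n l hM, rfl⟩

/-! ### Chromatic numbers -/

lemma chiDel_le {V : Type} (H : SimpleGraph V) (j c : ℕ) (S : Finset (Sym2 V))
    (hS : (S : Set (Sym2 V)) ⊆ H.edgeSet) (hj : S.card = j)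
    (hc : (H.deleteEdges (S : Set (Sym2 V))).Colorable c) : chiDel H j ≤ c := by
  have h1 := hc.chromaticNumber_le
  have hne : (H.deleteEdges (S : Set (Sym2 V))).chromaticNumber ≠ ⊤ := ne_top_of_le_ne_top
    (ENat.natCast_ne_top c) h1
  obtain ⟨d, hd⟩ := ENat.ne_top_iff_exists.1 hne
  rw [← hd] at h1
  have h2 : d ≤ c := by exact_mod_cast h1
  exact le_trans (Nat.sInf_le ⟨S, hS, hj, hd.symm⟩) h2

/-- a colouring with three colours in which only the edge `23` is monochromatic -/
def col3 (M : ℕ) : W M → Fin 3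
  | Sum.inl i => if i = 0 then 0 else if i = 1 then 1 else 2
  | Sum.inr p => if p.1 = 0 then 2 else 1

def col2 (M : ℕ) : W M → Fin 2
  | Sum.inl _ => 0
  | Sum.inr _ => 1

lemma col_aux1 : ∀ i k : Fin 4, i ≠ k → ¬ ((i = 2 ∧ k = 3) ∨ (i = 3 ∧ k = 2)) →
    (if i = 0 then (0 : Fin 3) else if i = 1 then 1 else 2) ≠
      (if k = 0 then 0 else if k = 1 then 1 else 2) := by decide

lemma col_aux2 : ∀ (i : Fin 4) (q : Fin 3), (i = 0 ∨ i = q.succ) →
    (if i = 0 then (0 : Fin 3) else if i = 1 then 1 else 2) ≠ (if q = 0 then 2 else 1) := by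
  decide

lemma chi_le_three (M j : ℕ) (h1 : 1 ≤ j) (h2 : j ≤ 6 * M + 6) : chiDel (G M) j ≤ 3 := by
  classical
  have hsub : ({s(Sum.inl 2, Sum.inl 3)} : Finset (Sym2 (W M))) ⊆ (G M).edgeFinset := by
    intro e he
    rw [Finset.mem_singleton] at he
    subst he
    rw [SimpleGraph.mem_edgeFinset, SimpleGraph.mem_edgeSet, adj_ll]
    decide
  obtain ⟨S, hS1, hS2, hS3⟩ := Finset.exists_subsuperset_card_eq (n := j) hsub
    (by simpa using h1) (by rw [card_edges]; exact h2)
  refine chiDel_le (G M) j 3 S ?_ hS3 ?_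
  · intro e he
    exact SimpleGraph.mem_edgeFinset.1 (hS2 he)
  · refine ⟨SimpleGraph.Coloring.mk (col3 M) ?_⟩
    intro v w hvw
    rw [SimpleGraph.deleteEdges_adj] at hvw
    obtain ⟨h, hn⟩ := hvw
    have h23 : s(v, w) ≠ s(Sum.inl 2, Sum.inl 3) := by
      intro hh
      exact hn (hS1 (by rw [hh]; exact Finset.mem_singleton_self _))
    rcases v with i | p <;> rcases w with k | q
    · rw [adj_ll] at h
      have h23' : ¬ ((i = 2 ∧ k = 3) ∨ (i = 3 ∧ k = 2)) := by
        intro hh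
        apply h23
        rw [Sym2.eq_iff]
        rcases hh with ⟨rfl, rfl⟩ | ⟨rfl, rfl⟩ <;> simp
      exact col_aux1 i k h h23'
    · rw [adj_lr] at h
      exact col_aux2 i q.1 h
    · rw [adj_rl] at h
      exact (col_aux2 k p.1 h).symm
    · exact absurd h (adj_rr M p q)

lemma chi_le_two (M j : ℕ) (h1 : 6 ≤ j) (h2 : j ≤ 6 * M + 6) : chiDel (G M) j ≤ 2 := by
  classical
  let K : Finset (Sym2 (W M)) :=
    ((Finset.univ : Finset (Fin 4)).sym2.filter (fun e => ¬ e.IsDiag)).image (Sym2.map Sum.inl)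
  have hsub : K ⊆ (G M).edgeFinset := by
    intro e he
    rw [Finset.mem_image] at he
    obtain ⟨d, hd, rfl⟩ := he
    rw [Finset.mem_filter] at hd
    induction d using Sym2.ind with
    | _ x y =>
      rw [SimpleGraph.mem_edgeFinset, Sym2.map_mk, SimpleGraph.mem_edgeSet, adj_ll]
      simpa using hd.2
  have hK : K.card ≤ 6 := le_trans Finset.card_image_le (by decide)
  obtain ⟨S, hS1, hS2, hS3⟩ := Finset.exists_subsuperset_card_eq (n := j) hsub
    (by omega) (by rw [card_edges]; exact h2)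
  refine chiDel_le (G M) j 2 S ?_ hS3 ?_
  · intro e he
    exact SimpleGraph.mem_edgeFinset.1 (hS2 he)
  · refine ⟨SimpleGraph.Coloring.mk (col2 M) ?_⟩
    intro v w hvw
    rw [SimpleGraph.deleteEdges_adj] at hvw
    obtain ⟨h, hn⟩ := hvw
    rcases v with i | p <;> rcases w with k | q
    · exfalso
      apply hn
      apply hS1
      rw [adj_ll] at h
      rw [Finset.mem_image]
      refine ⟨s(i, k), ?_, rfl⟩
      simpa using h
    · simp [col2]
    · simp [col2]
    · exact absurd h (adj_rr M p q)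

lemma piT_cases (M j : ℕ) (h1 : 1 ≤ j) (h2 : j ≤ 6 * M + 6) :
    piT (G M) j = 0 ∨ (j ≤ 5 ∧ piT (G M) j = 1 / 2) := by
  unfold piT
  by_cases h : 3 ≤ chiDel (G M) j
  · right
    constructor
    · by_contra hj
      have := chi_le_two M j (by omega) h2
      omega
    · have h3 : chiDel (G M) j = 3 := le_antisymm (chi_le_three M j h1 h2) h
      rw [if_pos h, h3]
      norm_num
  · left
    rw [if_neg h]

theorem result (C : ℝ) : ∃ (V : Type) (_ : Fintype V) (H : SimpleGraph V) (l : ℕ),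
    (∀ v, ∃ w, H.Adj v w) ∧ 3 ≤ H.edgeSet.ncard ∧ (∃ x y z, y ≠ z ∧ H.Adj x y ∧ H.Adj x z) ∧
    H.edgeSet.ncard ≤ l ∧
    (∀ j : ℕ, 1 ≤ j → j ≤ H.edgeSet.ncard - 1 →
      (l : ℝ) ^ piT H j * (j : ℝ) ^ (1 - piT H j) ≤ (H.edgeSet.ncard : ℝ) - 1 ∧
      piT H j * Real.log l + (1 - piT H j) * Real.log j + C < lam H l) ∧
    Real.log ((H.edgeSet.ncard : ℝ) - 1) + C < lam H l := by
  obtain ⟨m, hm⟩ := exists_nat_gt (25 * Real.exp (4 * C) + 1)
  have hm1 : 1 ≤ m := by
    have : (1 : ℝ) < m := lt_trans (by have := Real.exp_pos (4 * C); linarith) hm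
    have : 1 < m := by exact_mod_cast this
    omega
  have hcard : (G (5 * m)).edgeSet.ncard = 30 * m + 6 := by
    rw [← SimpleGraph.coe_edgeFinset, Set.ncard_coe_finset, card_edges]
    ring
  have hE : (((30 * m + 6 : ℕ) : ℝ) - 1) = 5 * (6 * m + 1) := by push_cast; ring
  have hEpos : (0 : ℝ) < 5 * (6 * (m : ℝ) + 1) := by positivity
  have hl : ((5 * (6 * m + 1) ^ 2 : ℕ) : ℝ) = (5 * (6 * (m : ℝ) + 1)) ^ 2 / 5 := by
    push_cast; ring
  have hlam : Real.log (5 * (6 * (m : ℝ) + 1)) + C < lam (G (5 * m)) (5 * (6 * m + 1) ^ 2) := by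
    have hle : 5 * m ≤ 5 * (6 * m + 1) ^ 2 := by nlinarith
    refine lt_of_lt_of_le ?_ (lam_ge (5 * m) (5 * (6 * m + 1) ^ 2) (by omega) (by omega))
    rw [hl, Real.log_div (by positivity) (by norm_num), Real.log_pow]
    have h1 : (4 * C + Real.log 25) < Real.log ((5 * m - 1 : ℕ) : ℝ) := by
      rw [Real.lt_log_iff_exp_lt (by
        have : 0 < 5 * m - 1 := by omega
        exact_mod_cast this), Real.exp_add, Real.exp_log (by norm_num)]
      have h2 : (m : ℝ) ≤ ((5 * m - 1 : ℕ) : ℝ) := by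
        have : m ≤ 5 * m - 1 := by omega
        exact_mod_cast this
      linarith
    have h25 : Real.log 25 = 2 * Real.log 5 := by
      rw [show (25 : ℝ) = 5 ^ 2 by norm_num, Real.log_pow]
      norm_num
    push_cast at h1 ⊢
    linarith
  have hj : ∀ j : ℕ, 1 ≤ j → j ≤ 30 * m + 6 - 1 →
      ((5 * (6 * m + 1) ^ 2 : ℕ) : ℝ) ^ piT (G (5 * m)) j * (j : ℝ) ^ (1 - piT (G (5 * m)) j)
        ≤ 5 * (6 * (m : ℝ) + 1) := by
    intro j h1 h2
    rcases piT_cases (5 * m) j h1 (by omega) with h | ⟨h5, h⟩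
    · rw [h]
      simp only [Real.rpow_zero, sub_zero, Real.rpow_one, one_mul]
      have : (j : ℝ) ≤ ((30 * m + 6 - 1 : ℕ) : ℝ) := by exact_mod_cast h2
      rw [Nat.cast_sub (by omega)] at this
      push_cast at this
      linarith
    · rw [h, show (1 : ℝ) - 1 / 2 = 1 / 2 by norm_num, ← Real.mul_rpow (by positivity)
        (by positivity), ← Real.sqrt_eq_rpow, hl]
      rw [Real.sqrt_le_left (by positivity)]
      have : (j : ℝ) ≤ 5 := by exact_mod_cast h5
      have hsq : (0 : ℝ) ≤ (5 * (6 * (m : ℝ) + 1)) ^ 2 := by positivity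
      nlinarith
  refine ⟨W (5 * m), inferInstance, G (5 * m), 5 * (6 * m + 1) ^ 2, ?_, ?_, ?_, ?_, ?_, ?_⟩
  · rintro (i | p)
    · by_cases h : i = 0
      · exact ⟨Sum.inl 1, by rw [adj_ll, h]; decide⟩
      · exact ⟨Sum.inl 0, by rw [adj_ll]; exact h⟩
    · exact ⟨Sum.inl 0, by rw [adj_rl]; left; rfl⟩
  · rw [hcard]; omega
  · refine ⟨Sum.inl 0, Sum.inl 1, Sum.inl 2, ?_, ?_, ?_⟩
    · simp
    · rw [adj_ll]; decide
    · rw [adj_ll]; decide
  · rw [hcard]; nlinarith
  · intro j h1 h2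
    rw [hcard] at h2 ⊢
    rw [hE]
    refine ⟨hj j h1 h2, ?_⟩
    refine lt_of_le_of_lt ?_ hlam
    have h3 := hj j h1 h2
    have hjp : (0 : ℝ) < j := by exact_mod_cast h1
    have hlp : (0 : ℝ) < ((5 * (6 * m + 1) ^ 2 : ℕ) : ℝ) := by
      rw [hl]; positivity
    have h4 := Real.log_le_log (by positivity) h3
    rw [Real.log_mul (by positivity) (by positivity), Real.log_rpow hlp, Real.log_rpow hjp] at h4
    linarith
  · rw [hcard, hE]
    exact hlam

end Pool.Agent.Results.MP_5f020a_co.Disproof
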